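import Pool.Agent.V11121.Conn

/-!
# Large complete graphs are not weakly contractible

For `c : Fin n × Fin n → Bool` the graph `Gr c` has the vertices `v_i = (i, none)` and `(i, some b)`, and
consists of the paths `v_i, (j, c (i, j)), (i, c (j, i)), v_j`, which form a scheme of the complete graph
with `n` vertices. A counting argument shows that for most `c` there is no `K_n`-minor.
-/

set_option autoImplicit false

namespace Pool.Agent.Results.MP_ed45fc_co.NotWeaklyContractible

open SimpleGraph Finset Pool.Agent.V11121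

/-- `H` is a minor of `G`. -/
def IsMinor {W V : Type} (H : SimpleGraph W) (G : SimpleGraph V) : Prop :=
  ∃ B : W → Set V, (∀ i, (G.induce (B i)).Connected) ∧
    (∀ i j, i ≠ j → Disjoint (B i) (B j)) ∧ ∀ i j, H.Adj i j → ∃ a ∈ B i, ∃ b ∈ B j, G.Adj a b

/-- `P` is an `H`-scheme in `G`, where the vertices of `H` are regarded as vertices of `G` via the
injective map `ρ`: the path of the edge `u v` joins `u` and `v` and contains no other vertex of `H`
(the path of `v u` is the reversed one), and whenever the paths of a nonempty set `F` of edges have a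
common vertex, all the edges in `F` have a common end. -/
def IsScheme {W V : Type} (H : SimpleGraph W) (G : SimpleGraph V) (ρ : W → V)
    (P : (u v : W) → H.Adj u v → G.Walk (ρ u) (ρ v)) : Prop :=
  Function.Injective ρ ∧ (∀ u v h, (P u v h).IsPath) ∧
  (∀ u v (h : H.Adj u v), P v u h.symm = (P u v h).reverse) ∧
  (∀ u v h w, ρ w ∈ (P u v h).support → w = u ∨ w = v) ∧
  ∀ F : Set (Sym2 W), F ⊆ H.edgeSet → F.Nonempty →
    (∃ x, ∀ u v (h : H.Adj u v), s(u, v) ∈ F → x ∈ (P u v h).support) → ∃ u, ∀ e ∈ F, u ∈ e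

/-- `H` is weakly contractible: every finite graph that contains an `H`-scheme has an `H`-minor. -/
def WeaklyContractible {W : Type} (H : SimpleGraph W) : Prop :=
  ∀ (V : Type) (_ : Finite V) (G : SimpleGraph V), (∃ ρ P, IsScheme H G ρ P) → IsMinor H G

/-- the label of `x` fits the colour assigned by the index of `y`. -/
def Fits {n : ℕ} (c : Fin n × Fin n → Bool) (x y : Fin n × Option Bool) : Prop :=
  ∀ b, x.2 = some b → c (y.1, x.1) = b

/-- the graph of `c`. -/
def Gr {n : ℕ} (c : Fin n × Fin n → Bool) : SimpleGraph (Fin n × Option Bool) where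
  Adj x y := x.1 ≠ y.1 ∧ Fits c x y ∧ Fits c y x ∧ (x.2 ≠ none ∨ y.2 ≠ none)
  symm := ⟨fun _ _ h => ⟨h.1.symm, h.2.2.1, h.2.1, h.2.2.2.symm⟩⟩
  loopless := ⟨fun _ h => h.1 rfl⟩

section scheme

variable {n : ℕ} (c : Fin n × Fin n → Bool)

theorem adj1 {i j : Fin n} (h : i ≠ j) : (Gr c).Adj (i, none) (j, some (c (i, j))) := by
  refine ⟨h, ?_, ?_, Or.inr (by simp)⟩
  · intro b hb
    exact absurd hb (by simp)
  · intro b hb
    simpa using hb

theorem adj2 {i j : Fin n} (h : i ≠ j) :
    (Gr c).Adj (j, some (c (i, j))) (i, some (c (j, i))) := by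
  refine ⟨h.symm, ?_, ?_, Or.inl (by simp)⟩
  · intro b hb
    simpa using hb
  · intro b hb
    simpa using hb

/-- the paths of the scheme. -/
def path (i j : Fin n) (h : i ≠ j) : (Gr c).Walk (i, none) (j, none) :=
  Walk.cons (adj1 c h) (Walk.cons (adj2 c h) (Walk.cons (adj1 c h.symm).symm Walk.nil))

theorem mem_path {i j : Fin n} {h : i ≠ j} {x : Fin n × Option Bool}
    (hx : x ∈ (path c i j h).support) : x = (i, none) ∨ x = (j, none) ∨
      x = (j, some (c (i, j))) ∨ x = (i, some (c (j, i))) := by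
  simp only [path, Walk.support_cons, Walk.support_nil, List.mem_cons, List.not_mem_nil,
    or_false] at hx
  tauto

theorem scheme : IsScheme (⊤ : SimpleGraph (Fin n)) (Gr c) (fun i => (i, none))
    (fun i j h => path c i j h) := by
  refine ⟨fun i j h => (Prod.mk.inj h).1, ?_, ?_, ?_, ?_⟩
  · intro i j h
    have hij : i ≠ j := h
    rw [Walk.isPath_def]
    simp [path, hij, hij.symm]
  · intro i j h
    rfl
  · intro i j h w hw
    rcases mem_path c hw with h1 | h1 | h1 | h1
    · exact Or.inl (Prod.mk.inj h1).1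
    · exact Or.inr (Prod.mk.inj h1).1
    · exact absurd (Prod.mk.inj h1).2 (by simp)
    · exact absurd (Prod.mk.inj h1).2 (by simp)
  · rintro F hF _ ⟨x, hx⟩
    refine ⟨x.1, ?_⟩
    intro e he
    induction e using Sym2.ind with
    | _ i j =>
      have hadj : (⊤ : SimpleGraph (Fin n)).Adj i j := hF he
      rcases mem_path c (hx i j hadj he) with h1 | h1 | h1 | h1 <;> rw [h1] <;> simp

end scheme

/-- `f` is a model of the complete graph in `Gr c`. -/
def Model {n : ℕ} (c : Fin n × Fin n → Bool) (f : Fin n × Option Bool → Option (Fin n)) : Prop :=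
  (∀ k, ((Gr c).induce {x | f x = some k}).Connected) ∧
    ∀ k l, k ≠ l → ∃ a b, f a = some k ∧ f b = some l ∧ (Gr c).Adj a b

theorem exists_model_of_minor {n : ℕ} {c : Fin n × Fin n → Bool}
    (h : IsMinor (⊤ : SimpleGraph (Fin n)) (Gr c)) : ∃ f, Model c f := by
  classical
  obtain ⟨B, h1, h2, h3⟩ := h
  let f : Fin n × Option Bool → Option (Fin n) :=
    fun x => if hx : ∃ k, x ∈ B k then some hx.choose else none
  have hf : ∀ k, {x | f x = some k} = B k := by
    intro k
    ext x
    constructor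
    · intro hx
      by_cases hex : ∃ k, x ∈ B k
      · have h4 : f x = some hex.choose := by simp [f, hex]
        have h5 : some hex.choose = some k := h4.symm.trans hx
        have h6 := hex.choose_spec
        rwa [Option.some.inj h5] at h6
      · have h4 : f x = none := by simp only [f, hex, dif_neg, not_false_eq_true]
        have h5 : none = some k := h4.symm.trans hx
        exact absurd h5 (by simp)
    · intro hx
      have hex : ∃ k, x ∈ B k := ⟨k, hx⟩
      have h4 : f x = some hex.choose := by simp [f, hex]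
      have h5 : hex.choose = k := by
        by_contra hne
        exact Set.disjoint_left.1 (h2 _ _ hne) hex.choose_spec hx
      show f x = some k
      rw [h4, h5]
  refine ⟨f, ?_, ?_⟩
  · intro k
    rw [hf k]
    exact h1 k
  · intro k l hkl
    obtain ⟨a, ha, b, hb, hab⟩ := h3 k l hkl
    refine ⟨a, b, ?_, ?_, hab⟩
    · have : a ∈ {x | f x = some k} := by rw [hf k]; exact ha
      exact this
    · have : b ∈ {x | f x = some l} := by rw [hf l]; exact hb
      exact this

/-- branch sets containing both vertices `(j, some b)` have at least four elements. -/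
theorem four_le {n : ℕ} {c : Fin n × Fin n → Bool} {D : Finset (Fin n × Option Bool)}
    (hD : ((Gr c).induce (D : Set (Fin n × Option Bool))).Connected) {j : Fin n}
    (h0 : (j, some false) ∈ D) (h1 : (j, some true) ∈ D) : 4 ≤ D.card := by
  classical
  have hnb : ∀ b : Bool, ∃ y ∈ D, y.1 ≠ j ∧ c (y.1, j) = b := by
    intro b
    have hb : (j, some b) ∈ D := by cases b <;> assumption
    have hb' : (j, some (!b)) ∈ D := by cases b <;> assumption
    obtain ⟨x, y, hx, hxA, hy, hyA, hxy⟩ := crossing (A := {(j, some b)}) hD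
      (Finset.mem_coe.2 hb) rfl (Finset.mem_coe.2 hb') (by simp)
    rw [Set.mem_singleton_iff] at hxA
    subst hxA
    exact ⟨y, hy, hxy.1.symm, hxy.2.1 b rfl⟩
  obtain ⟨y0, hy0, a0, b0⟩ := hnb false
  obtain ⟨y1, hy1, a1, b1⟩ := hnb true
  have hsub : ({(j, some false), (j, some true), y0, y1} : Finset (Fin n × Option Bool)) ⊆ D := by
    intro z hz
    simp only [Finset.mem_insert, Finset.mem_singleton] at hz
    rcases hz with rfl | rfl | rfl | rfl <;> assumption
  have hcard : ({(j, some false), (j, some true), y0, y1} :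
      Finset (Fin n × Option Bool)).card = 4 := by
    have e1 : y0 ≠ y1 := by
      rintro rfl
      rw [b0] at b1
      exact absurd b1 (by simp)
    have e2 : ∀ b, (j, some b) ≠ y0 := by
      rintro b rfl
      exact a0 rfl
    have e3 : ∀ b, (j, some b) ≠ y1 := by
      rintro b rfl
      exact a1 rfl
    rw [card_insert_of_notMem, card_insert_of_notMem, card_insert_of_notMem, card_singleton]
    · simpa using e1
    · simp only [Finset.mem_insert, Finset.mem_singleton, not_or]
      exact ⟨e2 _, e3 _⟩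
    · simp only [Finset.mem_insert, Finset.mem_singleton, not_or]
      exact ⟨by simp, e2 _, e3 _⟩
  rw [← hcard]
  exact card_le_card hsub

/-- a Markov inequality for disjoint sets. -/
theorem markov {K V : Type} [Fintype K] [Fintype V] [DecidableEq K] [DecidableEq V]
    (B : K → Finset V) (hB : ∀ k l, k ≠ l → Disjoint (B k) (B l)) (s : ℕ) :
    (univ.filter (fun k => s ≤ (B k).card)).card * s ≤ Fintype.card V := by
  calc (univ.filter (fun k => s ≤ (B k).card)).card * s
      = ∑ _k ∈ univ.filter (fun k => s ≤ (B k).card), s := by rw [sum_const, smul_eq_mul]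
    _ ≤ ∑ k ∈ univ.filter (fun k => s ≤ (B k).card), (B k).card :=
        sum_le_sum fun k hk => (mem_filter.1 hk).2
    _ = ((univ.filter (fun k => s ≤ (B k).card)).biUnion B).card :=
        (card_biUnion fun k _ l _ h => hB k l h).symm
    _ ≤ Fintype.card V := card_le_univ _

/-- selecting sets with pairwise disjoint supports. -/
theorem select {K I : Type} [Fintype K] [DecidableEq K] [Fintype I] [DecidableEq I]
    (X : K → Finset I) (S : Finset K) (a b : ℕ) (hne : ∀ k ∈ S, (X k).Nonempty)
    (ha : ∀ k ∈ S, (X k).card ≤ a) (hb : ∀ i, (univ.filter (fun k => i ∈ X k)).card ≤ b) :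
    ∃ T ⊆ S, (∀ k ∈ T, ∀ l ∈ T, k ≠ l → Disjoint (X k) (X l)) ∧ S.card ≤ a * b * T.card := by
  classical
  obtain ⟨T, hT, hmax⟩ := exists_max_image
    (S.powerset.filter (fun T => ∀ k ∈ T, ∀ l ∈ T, k ≠ l → Disjoint (X k) (X l))) (fun T => T.card)
    ⟨∅, by simp⟩
  rw [mem_filter, mem_powerset] at hT
  refine ⟨T, hT.1, hT.2, ?_⟩
  -- every member of `S` meets the union of the supports of `T`
  have hmeet : S ⊆ (T.biUnion X).biUnion (fun i => univ.filter (fun k => i ∈ X k)) := by
    intro k hk
    rw [mem_biUnion]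
    by_contra hcon
    push Not at hcon
    have hdis : ∀ l ∈ T, Disjoint (X k) (X l) := by
      intro l hl
      rw [Finset.disjoint_left]
      intro i hi hi'
      exact hcon i (mem_biUnion.2 ⟨l, hl, hi'⟩) (mem_filter.2 ⟨mem_univ _, hi⟩)
    have hkT : k ∉ T := by
      intro hkT
      obtain ⟨i, hi⟩ := hne k hk
      exact Finset.disjoint_left.1 (hdis k hkT) hi hi
    have h1 : insert k T ∈ S.powerset.filter
        (fun T => ∀ k ∈ T, ∀ l ∈ T, k ≠ l → Disjoint (X k) (X l)) := by
      rw [mem_filter, mem_powerset]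
      refine ⟨insert_subset hk hT.1, ?_⟩
      intro x hx y hy hxy
      rw [mem_insert] at hx hy
      rcases hx with rfl | hx <;> rcases hy with rfl | hy
      · exact absurd rfl hxy
      · exact hdis y hy
      · exact (hdis x hx).symm
      · exact hT.2 x hx y hy hxy
    have h2 := hmax _ h1
    rw [card_insert_of_notMem hkT] at h2
    omega
  calc S.card ≤ _ := card_le_card hmeet
    _ ≤ (T.biUnion X).card * b := card_biUnion_le_card_mul _ _ _ fun i _ => hb i
    _ ≤ (T.card * a) * b := Nat.mul_le_mul_right _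
        (card_biUnion_le_card_mul _ _ _ fun k hk => ha k (hT.1 hk))
    _ = a * b * T.card := by ring

/-- the block counting lemma. -/
theorem block_count {I P : Type} [Fintype I] [DecidableEq I] [DecidableEq P] (Q : P → Finset I)
    (g : I → Bool) (D : ℕ) (S : Finset P) (hD : ∀ p ∈ S, (Q p).card ≤ D)
    (hdis : ∀ p ∈ S, ∀ p' ∈ S, p ≠ p' → Disjoint (Q p) (Q p')) :
    (univ.filter (fun c : I → Bool => ∀ p ∈ S, ∃ x ∈ Q p, c x ≠ g x)).card * (2 ^ D) ^ S.card ≤
      2 ^ Fintype.card I * (2 ^ D - 1) ^ S.card := by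
  classical
  induction S using Finset.induction_on with
  | empty =>
    simp only [card_empty, pow_zero, mul_one]
    refine (card_le_univ _).trans ?_
    rw [Fintype.card_fun, Fintype.card_bool]
  | insert p S hp ih =>
    have ih' := ih (fun q hq => hD q (mem_insert_of_mem hq))
      (fun q hq q' hq' => hdis q (mem_insert_of_mem hq) q' (mem_insert_of_mem hq'))
    obtain ⟨A, hA⟩ : ∃ A, A = univ.filter (fun c : I → Bool => ∀ p ∈ S, ∃ x ∈ Q p, c x ≠ g x) :=
      ⟨_, rfl⟩
    obtain ⟨N, hN⟩ : ∃ N, N = A.filter (fun c => ∀ x ∈ Q p, c x = g x) := ⟨_, rfl⟩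
    have h1 : univ.filter (fun c : I → Bool => ∀ p' ∈ insert p S, ∃ x ∈ Q p', c x ≠ g x) =
        A \ N := by
      ext c
      rw [mem_sdiff, hN, mem_filter, mem_filter, hA, mem_filter]
      constructor
      · rintro ⟨_, h⟩
        refine ⟨⟨mem_univ _, fun q hq => h q (mem_insert_of_mem hq)⟩, ?_⟩
        rintro ⟨_, h2⟩
        obtain ⟨x, hx, hcx⟩ := h p (mem_insert_self _ _)
        exact hcx (h2 x hx)
      · rintro ⟨⟨_, h⟩, h2⟩
        refine ⟨mem_univ _, ?_⟩
        intro q hq
        rw [mem_insert] at hq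
        rcases hq with rfl | hq
        · by_contra hcon
          push Not at hcon
          exact h2 ⟨⟨mem_univ _, h⟩, hcon⟩
        · exact h q hq
    have h2 : A.card ≤ N.card * 2 ^ D := by
      have h3 : A.card ≤ (N ×ˢ (Q p).powerset).card := by
        apply card_le_card_of_injOn
          (fun c => (fun x => if x ∈ Q p then g x else c x, (Q p).filter (fun x => c x = true)))
        · intro c hc
          rw [mem_coe, hA, mem_filter] at hc
          rw [mem_coe, mem_product]
          refine ⟨?_, mem_powerset.2 (filter_subset _ _)⟩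
          rw [hN, mem_filter, hA, mem_filter]
          refine ⟨⟨mem_univ _, ?_⟩, ?_⟩
          · intro q hq
            obtain ⟨x, hx, hcx⟩ := hc.2 q hq
            refine ⟨x, hx, ?_⟩
            have hxp : x ∉ Q p := by
              intro hxp
              have hne : p ≠ q := by
                rintro rfl
                exact hp hq
              exact Finset.disjoint_left.1 (hdis p (mem_insert_self _ _) q
                (mem_insert_of_mem hq) hne) hxp hx
            simp only [hxp, if_false]
            exact hcx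
          · intro x hx
            simp only [hx, if_true]
        · intro c _ c' _ hcc
          obtain ⟨e1, e2⟩ := Prod.mk.inj hcc
          funext x
          by_cases hx : x ∈ Q p
          · have h4 : x ∈ (Q p).filter (fun x => c x = true) ↔
                x ∈ (Q p).filter (fun x => c' x = true) := by rw [e2]
            simp only [mem_filter, hx, true_and] at h4
            cases h5 : c x <;> cases h6 : c' x <;> simp_all
          · have := congrFun e1 x
            simpa [hx] using this
      rw [card_product, card_powerset] at h3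
      exact h3.trans (Nat.mul_le_mul_left _
        (Nat.pow_le_pow_right (by norm_num) (hD p (mem_insert_self _ _))))
    have h3 : (A \ N).card + N.card = A.card :=
      card_sdiff_add_card_eq_card (hN ▸ filter_subset _ _)
    have hpos : 1 ≤ 2 ^ D := Nat.one_le_two_pow
    have h4 : (A \ N).card * 2 ^ D ≤ A.card * (2 ^ D - 1) := by
      obtain ⟨E, hE⟩ : ∃ E, 2 ^ D = E + 1 := ⟨2 ^ D - 1, by omega⟩
      rw [hE] at h2 ⊢
      simp only [Nat.add_sub_cancel]
      nlinarith
    rw [h1, card_insert_of_notMem hp]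
    calc (A \ N).card * (2 ^ D) ^ (S.card + 1)
        = ((A \ N).card * 2 ^ D) * (2 ^ D) ^ S.card := by ring
      _ ≤ (A.card * (2 ^ D - 1)) * (2 ^ D) ^ S.card := Nat.mul_le_mul_right _ h4
      _ = (A.card * (2 ^ D) ^ S.card) * (2 ^ D - 1) := by ring
      _ ≤ (2 ^ Fintype.card I * (2 ^ D - 1) ^ S.card) * (2 ^ D - 1) := by
          apply Nat.mul_le_mul_right
          rw [hA]
          exact ih'
      _ = _ := by ring

theorem block_count' {I P : Type} [Fintype I] [DecidableEq I] [DecidableEq P] (Q : P → Finset I)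
    (g : I → Bool) (D : ℕ) (S : Finset P) (hD : ∀ p ∈ S, (Q p).card ≤ D)
    (hdis : ∀ p ∈ S, ∀ p' ∈ S, p ≠ p' → Disjoint (Q p) (Q p')) (A : Finset (I → Bool))
    (hA : ∀ c ∈ A, ∀ p ∈ S, ∃ x ∈ Q p, c x ≠ g x) :
    A.card * (2 ^ D) ^ S.card ≤ 2 ^ Fintype.card I * (2 ^ D - 1) ^ S.card := by
  refine le_trans (Nat.mul_le_mul_right _ (card_le_card ?_)) (block_count Q g D S hD hdis)
  intro c hc
  exact mem_filter.2 ⟨mem_univ _, hA c hc⟩

/-- the number of colourings for which a given map is a model. -/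
theorem count_model {n t : ℕ} (f : Fin n × Option Bool → Option (Fin n))
    {c0 : Fin n × Fin n → Bool} (h0 : Model c0 f) (ht : 1152 * t ≤ n) {N : ℕ} (hN : N = 2 ^ 1152)
    (A : Finset (Fin n × Fin n → Bool)) (hA : ∀ c ∈ A, Model c f) :
    A.card * N ^ (t * t) ≤ 2 ^ (n * n) * (N - 1) ^ (t * t) := by
  classical
  obtain ⟨B, hB⟩ : ∃ B : Fin n → Finset (Fin n × Option Bool),
    B = fun k => univ.filter (fun x => f x = some k) := ⟨_, rfl⟩
  have hmem : ∀ k x, x ∈ B k ↔ f x = some k := by
    intro k x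
    rw [hB]
    simp
  have hdis : ∀ k l, k ≠ l → Disjoint (B k) (B l) := by
    intro k l hkl
    rw [Finset.disjoint_left]
    intro x hx hx'
    rw [hmem] at hx hx'
    rw [hx] at hx'
    exact hkl (Option.some.inj hx')
  have hconn : ∀ k, ((Gr c0).induce (B k : Set (Fin n × Option Bool))).Connected := by
    intro k
    have h1 : (B k : Set (Fin n × Option Bool)) = {x | f x = some k} := by
      ext x
      rw [mem_coe, hmem]
      rfl
    rw [h1]
    exact h0.1 k
  have hV : Fintype.card (Fin n × Option Bool) = 3 * n := by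
    rw [Fintype.card_prod, Fintype.card_option, Fintype.card_bool, Fintype.card_fin]
    ring
  -- the good branch sets
  obtain ⟨S, hS⟩ : ∃ S : Finset (Fin n), S = univ.filter (fun k => (B k).card ≤ 24 ∧
    ∀ j, ¬ ((j, some false) ∈ B k ∧ (j, some true) ∈ B k)) := ⟨_, rfl⟩
  have hSc : 144 * t ≤ S.card := by
    have m1 := markov B hdis 25
    have m2 := markov B hdis 4
    rw [hV] at m1 m2
    have hcov : (univ : Finset (Fin n)) ⊆ S ∪ (univ.filter (fun k => 25 ≤ (B k).card) ∪
        univ.filter (fun k => 4 ≤ (B k).card)) := by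
      intro k _
      rw [mem_union, mem_union, mem_filter, mem_filter, hS, mem_filter]
      by_cases h1 : (B k).card ≤ 24
      · by_cases h2 : ∀ j, ¬ ((j, some false) ∈ B k ∧ (j, some true) ∈ B k)
        · exact Or.inl ⟨mem_univ _, h1, h2⟩
        · push Not at h2
          obtain ⟨j, hj1, hj2⟩ := h2
          exact Or.inr (Or.inr ⟨mem_univ _, four_le (hconn k) hj1 hj2⟩)
      · exact Or.inr (Or.inl ⟨mem_univ _, by omega⟩)
    have h3 := card_le_card hcov
    rw [card_univ, Fintype.card_fin] at h3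
    have h4 := card_union_le S (univ.filter (fun k => 25 ≤ (B k).card) ∪
        univ.filter (fun k => 4 ≤ (B k).card))
    have h5 := card_union_le (univ.filter (fun k => 25 ≤ (B k).card))
        (univ.filter (fun k => 4 ≤ (B k).card))
    omega
  obtain ⟨X, hX⟩ : ∃ X : Fin n → Finset (Fin n), X = fun k => (B k).image Prod.fst := ⟨_, rfl⟩
  have hXmem : ∀ k x, x ∈ B k → x.1 ∈ X k := by
    intro k x hx
    rw [hX]
    exact mem_image_of_mem _ hx
  have hSmem : ∀ k ∈ S, (B k).card ≤ 24 ∧ ∀ j, ¬ ((j, some false) ∈ B k ∧ (j, some true) ∈ B k) := by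
    intro k hk
    rw [hS, mem_filter] at hk
    exact hk.2
  have hXc : ∀ k ∈ S, (X k).card ≤ 24 := by
    intro k hk
    rw [hX]
    exact card_image_le.trans (hSmem k hk).1
  obtain ⟨T, hTS, hTd, hTc⟩ := select X S 24 3 (by
      intro k _
      obtain ⟨⟨x, hx⟩⟩ := (hconn k).nonempty
      exact ⟨x.1, hXmem k x hx⟩) hXc (by
      intro i
      have h1 : ((univ.filter (fun k => i ∈ X k)).map ⟨some, Option.some_injective _⟩) ⊆
          (univ : Finset (Option Bool)).image (fun a => f (i, a)) := by
        intro z hz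
        rw [mem_map] at hz
        obtain ⟨k, hk, rfl⟩ := hz
        rw [mem_filter, hX, mem_image] at hk
        obtain ⟨x, hx, hxi⟩ := hk.2
        rw [mem_image]
        refine ⟨x.2, mem_univ _, ?_⟩
        rw [hmem] at hx
        rw [← hxi]
        exact hx
      have h2 := card_le_card h1
      rw [card_map] at h2
      refine h2.trans (card_image_le.trans ?_)
      rw [card_univ, Fintype.card_option, Fintype.card_bool])
  have hT2 : 2 * t ≤ T.card := by omega
  obtain ⟨T1, hT1, hT1c⟩ := exists_subset_card_eq (s := T) (n := t) (by omega)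
  obtain ⟨T2, hT2', hT2c⟩ := exists_subset_card_eq (s := T \ T1) (n := t) (by
    rw [card_sdiff_of_subset hT1]
    omega)
  have hT2T : T2 ⊆ T := hT2'.trans sdiff_subset
  have h12 : ∀ k ∈ T1, ∀ l ∈ T2, k ≠ l := by
    rintro k hk l hl rfl
    exact (mem_sdiff.1 (hT2' hl)).2 hk
  -- different members of `T` have disjoint supports
  have huniq : ∀ k ∈ T, ∀ l ∈ T, ∀ i, i ∈ X k → i ∈ X l → k = l := by
    intro k hk l hl i hi hi'
    by_contra hne
    exact Finset.disjoint_left.1 (hTd k hk l hl hne) hi hi'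
  obtain ⟨g, hg⟩ : ∃ g : Fin n × Fin n → Bool,
    g = fun x => decide (∃ k ∈ T, (x.2, some false) ∈ B k) := ⟨_, rfl⟩
  have hgB : ∀ l ∈ T, ∀ i j, (j, some (g (i, j))) ∉ B l := by
    intro l hl i j hcon
    by_cases hex : ∃ k ∈ T, (j, some false) ∈ B k
    · have hgt : g (i, j) = true := by
        rw [hg]
        simpa using hex
      rw [hgt] at hcon
      obtain ⟨k, hk, hkB⟩ := hex
      have hkl : k = l := huniq k hk l hl j (hXmem k _ hkB) (hXmem l _ hcon)
      rw [hkl] at hkB
      exact (hSmem l (hTS hl)).2 j ⟨hkB, hcon⟩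
    · have hgf : g (i, j) = false := by
        rw [hg]
        simpa using hex
      rw [hgf] at hcon
      exact hex ⟨l, hl, hcon⟩
  obtain ⟨Q, hQ⟩ : ∃ Q : Fin n × Fin n → Finset (Fin n × Fin n),
    Q = fun p => X p.1 ×ˢ X p.2 ∪ X p.2 ×ˢ X p.1 := ⟨_, rfl⟩
  have hQmem : ∀ p x, x ∈ Q p ↔ (x.1 ∈ X p.1 ∧ x.2 ∈ X p.2) ∨ (x.1 ∈ X p.2 ∧ x.2 ∈ X p.1) := by
    intro p x
    rw [hQ]
    simp [mem_union, mem_product]
  have key := block_count' Q g 1152 (T1 ×ˢ T2) (by
      intro p hp
      rw [mem_product] at hp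
      have c1 := hXc _ (hTS (hT1 hp.1))
      have c2 := hXc _ (hTS (hT2T hp.2))
      have c3 : (X p.1).card * (X p.2).card ≤ 24 * 24 := Nat.mul_le_mul c1 c2
      rw [hQ]
      refine (card_union_le _ _).trans ?_
      rw [card_product, card_product]
      have c4 : (X p.2).card * (X p.1).card = (X p.1).card * (X p.2).card := mul_comm _ _
      omega) (by
      intro p hp p' hp' hne
      rw [mem_product] at hp hp'
      have a1 := hT1 hp.1
      have a2 := hT2T hp.2
      have a3 := hT1 hp'.1
      have a4 := hT2T hp'.2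
      rw [Finset.disjoint_left]
      intro x hx hx'
      rw [hQmem] at hx hx'
      rcases hx with ⟨b1, b2⟩ | ⟨b1, b2⟩ <;> rcases hx' with ⟨b3, b4⟩ | ⟨b3, b4⟩
      · exact hne (Prod.ext (huniq _ a1 _ a3 _ b1 b3) (huniq _ a2 _ a4 _ b2 b4))
      · exact h12 _ hp.1 _ hp'.2 (huniq _ a1 _ a4 _ b1 b3)
      · exact h12 _ hp'.1 _ hp.2 (huniq _ a3 _ a2 _ b3 b1)
      · exact hne (Prod.ext (huniq _ a1 _ a3 _ b2 b4) (huniq _ a2 _ a4 _ b1 b3))) A ?_
  rw [card_product, hT1c, hT2c, Fintype.card_prod, Fintype.card_fin, ← hN] at key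
  · exact key
  intro c hc p hp
  rw [mem_product] at hp
  by_contra hcon
  push Not at hcon
  obtain ⟨a, b, ha, hb, hab⟩ := (hA c hc).2 p.1 p.2 (h12 _ hp.1 _ hp.2)
  have ha' := (hmem p.1 a).2 ha
  have hb' := (hmem p.2 b).2 hb
  have e1 : c (b.1, a.1) = g (b.1, a.1) :=
    hcon _ ((hQmem p _).2 (Or.inr ⟨hXmem _ _ hb', hXmem _ _ ha'⟩))
  have e2 : c (a.1, b.1) = g (a.1, b.1) :=
    hcon _ ((hQmem p _).2 (Or.inl ⟨hXmem _ _ ha', hXmem _ _ hb'⟩))
  rcases hab.2.2.2 with h1 | h1
  · obtain ⟨β, hβ⟩ := Option.ne_none_iff_exists'.1 h1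
    have h2 := hab.2.1 β hβ
    apply hgB p.1 (hT1 hp.1) b.1 a.1
    rw [← e1, h2, ← hβ]
    exact ha'
  · obtain ⟨β, hβ⟩ := Option.ne_none_iff_exists'.1 h1
    have h2 := hab.2.2.1 β hβ
    apply hgB p.2 (hT2T hp.2) a.1 b.1
    rw [← e2, h2, ← hβ]
    exact hb'

/-- a colouring without a minor exists if the counts allow it. -/
theorem exists_no_minor {n t : ℕ} (ht : 1152 * t ≤ n) {N : ℕ} (hN : N = 2 ^ 1152)
    (hbig : (n + 1) ^ (3 * n) * (N - 1) ^ (t * t) < N ^ (t * t)) :
    ∃ c : Fin n × Fin n → Bool, ¬ IsMinor (⊤ : SimpleGraph (Fin n)) (Gr c) := by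
  classical
  by_contra hcon
  push Not at hcon
  have hcov : (univ : Finset (Fin n × Fin n → Bool)) ⊆
      (univ : Finset (Fin n × Option Bool → Option (Fin n))).biUnion
        (fun f => univ.filter (fun c => Model c f)) := by
    intro c _
    obtain ⟨f, hf⟩ := exists_model_of_minor (hcon c)
    exact mem_biUnion.2 ⟨f, mem_univ _, mem_filter.2 ⟨mem_univ _, hf⟩⟩
  have h1 := (card_le_card hcov).trans card_biUnion_le
  rw [card_univ, Fintype.card_fun, Fintype.card_bool, Fintype.card_prod, Fintype.card_fin] at h1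
  have h2 : ∀ f : Fin n × Option Bool → Option (Fin n),
      (univ.filter (fun c => Model c f)).card * N ^ (t * t) ≤
        2 ^ (n * n) * (N - 1) ^ (t * t) := by
    intro f
    by_cases hex : ∃ c0, Model c0 f
    · obtain ⟨c0, h0⟩ := hex
      exact count_model f h0 ht hN _ (fun c hc => (mem_filter.1 hc).2)
    · push Not at hex
      rw [filter_false_of_mem (fun c _ => hex c), card_empty, zero_mul]
      exact Nat.zero_le _
  have h3 : 2 ^ (n * n) * N ^ (t * t) ≤
      (n + 1) ^ (3 * n) * (2 ^ (n * n) * (N - 1) ^ (t * t)) := by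
    calc 2 ^ (n * n) * N ^ (t * t)
        ≤ (∑ f : Fin n × Option Bool → Option (Fin n),
            (univ.filter (fun c => Model c f)).card) * N ^ (t * t) := Nat.mul_le_mul_right _ h1
      _ = ∑ f : Fin n × Option Bool → Option (Fin n),
            (univ.filter (fun c => Model c f)).card * N ^ (t * t) := by rw [sum_mul]
      _ ≤ ∑ _f : Fin n × Option Bool → Option (Fin n), 2 ^ (n * n) * (N - 1) ^ (t * t) :=
          sum_le_sum fun f _ => h2 f
      _ = _ := by
          rw [sum_const, card_univ, Fintype.card_fun, Fintype.card_option, Fintype.card_prod,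
            Fintype.card_option, Fintype.card_bool, Fintype.card_fin, smul_eq_mul]
          congr 2
          ring
  have h4 : 2 ^ (n * n) * N ^ (t * t) ≤ 2 ^ (n * n) * ((n + 1) ^ (3 * n) * (N - 1) ^ (t * t)) := by
    refine h3.trans (le_of_eq ?_)
    ring
  have h5 := Nat.le_of_mul_le_mul_left h4 (by positivity)
  omega

/-- the counts allow it for large `n`. -/
theorem eventually_big {N : ℕ} (hN : 2 ≤ N) : ∃ n0 : ℕ, ∀ n ≥ n0,
    (n + 1) ^ (3 * n) * (N - 1) ^ ((n / 1152) * (n / 1152)) < N ^ ((n / 1152) * (n / 1152)) := by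
  obtain ⟨M, hM⟩ : ∃ M, N = M + 1 := ⟨N - 1, by omega⟩
  subst hM
  have hM1 : 1 ≤ M := by omega
  simp only [Nat.add_sub_cancel]
  have hMr : (0 : ℝ) < M := by exact_mod_cast hM1
  obtain ⟨κ, hκ⟩ : ∃ κ : ℝ, κ = Real.log ((M + 1 : ℝ) / M) := ⟨_, rfl⟩
  have hκ0 : 0 < κ := by
    rw [hκ]
    apply Real.log_pos
    rw [lt_div_iff₀ hMr]
    linarith
  -- eventually `log (n + 1) ≤ ε n`
  have hlog : ∀ᶠ n : ℕ in Filter.atTop,
      3 * Real.log ((n : ℝ) + 1) < κ / (2304 ^ 2) * n := by
    have h1 : (fun x : ℝ => Real.log x) =o[Filter.atTop] fun x : ℝ => x := Real.isLittleO_log_id_atTop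
    have h2 := h1.def (c := κ / (2304 ^ 2) / 12) (by positivity)
    have h3 : Filter.Tendsto (fun n : ℕ => (n : ℝ) + 1) Filter.atTop Filter.atTop :=
      Filter.tendsto_atTop_add_const_right _ _ tendsto_natCast_atTop_atTop
    filter_upwards [h3.eventually h2, Filter.eventually_ge_atTop 1] with n hn hn1
    have hn1' : (1 : ℝ) ≤ n := by exact_mod_cast hn1
    have h4 : Real.log ((n : ℝ) + 1) ≤ κ / (2304 ^ 2) / 12 * ((n : ℝ) + 1) := by
      refine (le_abs_self _).trans ?_
      have := hn
      rw [Real.norm_eq_abs, Real.norm_of_nonneg (by positivity)] at this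
      exact this
    have h5 : 0 < κ / (2304 ^ 2) := by positivity
    nlinarith
  obtain ⟨n0, hn0⟩ := Filter.eventually_atTop.1 hlog
  refine ⟨max n0 2304, ?_⟩
  intro n hn
  have h1 := hn0 n (le_trans (le_max_left _ _) hn)
  have h2 : 2304 ≤ n := le_trans (le_max_right _ _) hn
  obtain ⟨t, ht⟩ : ∃ t, t = n / 1152 := ⟨_, rfl⟩
  rw [← ht]
  have h3 : n ≤ 2304 * t := by omega
  have h3r : (n : ℝ) ≤ 2304 * t := by exact_mod_cast h3
  have h2r : (2304 : ℝ) ≤ n := by exact_mod_cast h2
  have hn0' : (0 : ℝ) < n := by linarith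
  have h4 : (3 * n : ℝ) * Real.log ((n : ℝ) + 1) < (t * t : ℝ) * κ := by
    have h5 : (3 * n : ℝ) * Real.log ((n : ℝ) + 1) < κ / (2304 ^ 2) * n * n := by
      have := mul_lt_mul_of_pos_right h1 hn0'
      linarith
    have h6 : (n : ℝ) * n ≤ (2304 * t) * (2304 * t) := by
      apply mul_le_mul h3r h3r hn0'.le
      positivity
    have h7 : κ / (2304 ^ 2) * n * n ≤ t * t * κ := by
      have h8 : κ / (2304 ^ 2) * ((n : ℝ) * n) ≤ κ / (2304 ^ 2) * ((2304 * t) * (2304 * t)) :=
        mul_le_mul_of_nonneg_left h6 (by positivity)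
      have h9 : κ / (2304 ^ 2) * ((2304 * (t : ℝ)) * (2304 * t)) = t * t * κ := by
        field_simp
      linarith
    linarith
  have h5 : ((n : ℝ) + 1) ^ (3 * n) < ((M + 1 : ℝ) / M) ^ (t * t) := by
    rw [← Real.log_lt_log_iff (by positivity) (by positivity), Real.log_pow, Real.log_pow, ← hκ]
    push_cast
    exact h4
  rw [div_pow, lt_div_iff₀ (by positivity)] at h5
  exact_mod_cast h5

/-- For all sufficiently large `n`, the complete graph with `n` vertices is not weakly
contractible. -/
theorem result : ∃ n0 : ℕ, ∀ n ≥ n0, ¬ WeaklyContractible (⊤ : SimpleGraph (Fin n)) := by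
  obtain ⟨N, hN⟩ : ∃ N, N = 2 ^ 1152 := ⟨_, rfl⟩
  have hN2 : 2 ≤ N := by
    rw [hN]
    have h1 : ∀ m : ℕ, 1 ≤ m → 2 ≤ 2 ^ m := by
      intro m hm
      calc 2 = 2 ^ 1 := by norm_num
        _ ≤ 2 ^ m := Nat.pow_le_pow_right (by norm_num) hm
    exact h1 1152 (by omega)
  obtain ⟨n0, hn0⟩ := eventually_big hN2
  refine ⟨n0, ?_⟩
  intro n hn hweak
  obtain ⟨c, hc⟩ := exists_no_minor (t := n / 1152) (Nat.mul_div_le n 1152) hN (hn0 n hn)
  exact hc (hweak _ inferInstance (Gr c) ⟨_, _, scheme c⟩)

end Pool.Agent.Results.MP_ed45fc_co.NotWeaklyContractible
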